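import Pool.Agent.Helper47.SR.Goals

namespace Pool.Agent.Helper71.SR

open Finset Pool.Agent.Helper47.SR

variable {n : ℕ}

theorem mem_orb {G : Grp n} {A B : Finset (Fin n)} : B ∈ orb G A ↔ ∃ γ ∈ G, mv γ A = B := by
  simp [orb]

theorem mv_one (A : Finset (Fin n)) : mv 1 A = A := by
  ext x; simp only [mv, mem_map_equiv]; rfl

theorem mv_mul (γ δ : Equiv.Perm (Fin n)) (A : Finset (Fin n)) : mv (γ * δ) A = mv γ (mv δ A) := by
  ext x; simp only [mv, mem_map_equiv]; rfl

theorem mv_inv_mv (γ : Equiv.Perm (Fin n)) (A : Finset (Fin n)) : mv γ⁻¹ (mv γ A) = A := by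
  rw [← mv_mul]; simp [mv_one]

theorem mv_mv_inv (γ : Equiv.Perm (Fin n)) (A : Finset (Fin n)) : mv γ (mv γ⁻¹ A) = A := by
  rw [← mv_mul]; simp [mv_one]

theorem self_mem_orb (G : Grp n) (A : Finset (Fin n)) : A ∈ orb G A :=
  mem_orb.2 ⟨1, G.one_mem, mv_one A⟩

theorem orb_mv {G : Grp n} {γ : Equiv.Perm (Fin n)} (hγ : γ ∈ G) (A : Finset (Fin n)) :
    orb G (mv γ A) = orb G A := by
  ext B
  rw [mem_orb, mem_orb]
  constructor
  · rintro ⟨δ, hδ, h⟩
    exact ⟨δ * γ, G.mul_mem hδ hγ, by rw [mv_mul, h]⟩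
  · rintro ⟨δ, hδ, h⟩
    exact ⟨δ * γ⁻¹, G.mul_mem hδ (G.inv_mem hγ), by rw [mv_mul, mv_inv_mv, h]⟩

theorem orb_eq {G : Grp n} {A B : Finset (Fin n)} (h : B ∈ orb G A) : orb G B = orb G A := by
  obtain ⟨γ, hγ, rfl⟩ := mem_orb.1 h
  exact orb_mv hγ A

theorem card_mv (γ : Equiv.Perm (Fin n)) (A : Finset (Fin n)) : #(mv γ A) = #A := by
  simp [mv]

theorem card_of_mem_orb {G : Grp n} {A B : Finset (Fin n)} (h : B ∈ orb G A) : #B = #A := by
  obtain ⟨γ, hγ, rfl⟩ := mem_orb.1 h
  exact card_mv γ A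

theorem mv_compl (γ : Equiv.Perm (Fin n)) (A : Finset (Fin n)) : mv γ Aᶜ = (mv γ A)ᶜ := by
  ext x
  simp only [mv, mem_map_equiv, mem_compl]

theorem wt_compl (G : Grp n) (A : Finset (Fin n)) : wt G Aᶜ = wt G A := by
  unfold wt
  congr 1
  ext γ
  simp only [mem_filter, mem_univ, true_and]
  rw [mv_compl, compl_inj_iff]

theorem mv_subset {γ : Equiv.Perm (Fin n)} {A B : Finset (Fin n)} (h : A ⊆ B) : mv γ A ⊆ mv γ B :=
  Finset.map_subset_map.2 h

/-- members of an orbit family, characterised by the orbit -/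
theorem inv_filter (G : Grp n) (j : ℕ) (p : Finset (Finset (Fin n)) → Prop)
    [DecidablePred (fun A : Finset (Fin n) => p (orb G A))] :
    IsInv G ((lev n j).filter (fun A => p (orb G A))) := by
  intro γ hγ A hA
  simp only [mem_filter, mem_powersetCard_univ] at hA ⊢
  exact ⟨by rw [card_mv]; exact hA.1, by rw [orb_mv hγ]; exact hA.2⟩

theorem image_filter (G : Grp n) (j : ℕ) (p : Finset (Finset (Fin n)) → Prop)
    [DecidablePred (fun A : Finset (Fin n) => p (orb G A))] [DecidablePred p] :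
    ((lev n j).filter (fun A => p (orb G A))).image (orb G) = (QL G j).filter p := by
  ext x
  simp only [mem_image, mem_filter, QL]
  constructor
  · rintro ⟨A, ⟨h1, h2⟩, rfl⟩
    exact ⟨⟨A, h1, rfl⟩, h2⟩
  · rintro ⟨⟨A, h1, rfl⟩, h2⟩
    exact ⟨A, ⟨h1, h2⟩, rfl⟩

theorem W_filter (hORB : Goal_ORB) (G : Grp n) (j : ℕ) (p : Finset (Finset (Fin n)) → Prop)
    [DecidablePred (fun A : Finset (Fin n) => p (orb G A))] [DecidablePred p] :
    W G ((lev n j).filter (fun A => p (orb G A))) = Nat.card G * #((QL G j).filter p) := by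
  rw [hORB n G _ (inv_filter G j p), image_filter]

theorem W_compl (G : Grp n) (F F' : Finset (Finset (Fin n)))
    (h : ∀ A, A ∈ F' ↔ Aᶜ ∈ F) : W G F' = W G F := by
  unfold W
  refine Finset.sum_bij (fun A _ => Aᶜ) (fun A hA => (h A).1 hA) (fun A _ B _ hAB => compl_inj_iff.1 hAB)
    (fun B hB => ⟨Bᶜ, (h _).2 (by rwa [compl_compl]), compl_compl B⟩) (fun A _ => by rw [wt_compl])

theorem W_lev (hORB : Goal_ORB) (G : Grp n) (j : ℕ) :
    W G (lev n j) = Nat.card G * #(QL G j) := by
  rw [hORB n G (lev n j)]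
  · rfl
  · intro γ _ A hA
    rw [mem_powersetCard_univ] at hA ⊢
    rw [card_mv]; exact hA

theorem W_split (G : Grp n) (F F' K : Finset (Finset (Fin n))) (hd : Disjoint F F')
    (h : ∀ A, A ∈ K ↔ A ∈ F ∨ A ∈ F') : W G K = W G F + W G F' := by
  have : K = F ∪ F' := by ext A; rw [mem_union]; exact h A
  subst this
  unfold W
  exact Finset.sum_union hd

open Classical in
theorem goal_QST (hORB : Goal_ORB) : Goal_QST := by
  intro n G m hm hstar S hS T hT hlt i1 i2
  have hg : 0 < Nat.card G := Nat.card_pos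
  set S' : Finset (Finset (Fin n)) := (lev n m).filter (fun A => orb G A ∈ S) with hS'
  set Y : Finset (Finset (Fin n)) := (lev n m).filter (fun A => orb G Aᶜ ∉ T) with hY
  set T' : Finset (Finset (Fin n)) := (lev n (n - m)).filter (fun A => orb G A ∈ T) with hT'
  set Z : Finset (Finset (Fin n)) := (lev n m).filter (fun A => orb G Aᶜ ∈ T) with hZ
  have hWS : W G S' = Nat.card G * #S := by
    have := W_filter hORB G m (fun x => x ∈ S)
    rw [hS', this]
    congr 2
    ext x
    simp only [mem_filter]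
    exact ⟨fun h => h.2, fun h => ⟨hS h, h⟩⟩
  have hWT : W G T' = Nat.card G * #T := by
    have := W_filter hORB G (n - m) (fun x => x ∈ T)
    rw [hT', this]
    congr 2
    ext x
    simp only [mem_filter]
    exact ⟨fun h => h.2, fun h => ⟨hT h, h⟩⟩
  have hZT : W G Z = W G T' := by
    refine W_compl G T' Z (fun A => ?_)
    simp only [hZ, hT', mem_filter, mem_powersetCard_univ, card_compl, Fintype.card_fin]
    have : #A ≤ n := by simpa using card_le_univ A
    constructor
    · rintro ⟨h1, h2⟩; exact ⟨by omega, h2⟩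
    · rintro ⟨h1, h2⟩; exact ⟨by omega, h2⟩
  have hYZ : W G (lev n m) = W G Y + W G Z := by
    refine W_split G Y Z _ ?_ (fun A => ?_)
    · rw [Finset.disjoint_left]
      intro A hA hA'
      simp only [hY, hZ, mem_filter] at hA hA'
      exact hA.2 hA'.2
    · simp only [hY, hZ, mem_filter]
      tauto
  have hWL := W_lev hORB G m
  have hWL1 := W_lev hORB G (m + 1)
  have hSinv : IsInv G S' := inv_filter G m (fun x => x ∈ S)
  have hYinv : IsInv G Y := by
    intro γ hγ A hA
    simp only [hY, mem_filter, mem_powersetCard_univ] at hA ⊢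
    exact ⟨by rw [card_mv]; exact hA.1, by rw [← mv_compl, orb_mv hγ]; exact hA.2⟩
  have hlt' : W G Y < W G S' := by
    have h2 : Nat.card G * #(QL G m) < Nat.card G * (#S + #T) :=
      (Nat.mul_lt_mul_left hg).2 hlt
    rw [Nat.mul_add] at h2
    omega
  have hst := hstar S' Y (filter_subset _ _) (filter_subset _ _) hSinv hYinv hlt'
  -- the up family
  have hup : W G (up m S') =
      Nat.card G * #((QL G (m + 1)).filter (fun x => ∃ s ∈ S, QR s x)) := by
    have := W_filter hORB G (m + 1) (fun x => ∃ s ∈ S, QR s x)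
    rw [← this]
    congr 1
    ext B
    simp only [up, mem_filter, mem_powersetCard_univ, hS']
    constructor
    · rintro ⟨h1, a, ha, h2, h3⟩
      exact ⟨h1, _, h3, B.erase a, self_mem_orb G _, B, self_mem_orb G _, erase_subset _ _⟩
    · rintro ⟨h1, s, hs, A, hA, B', hB', hAB⟩
      refine ⟨h1, ?_⟩
      obtain ⟨γ, hγ, rfl⟩ := mem_orb.1 hB'
      -- translate back
      have hA2 : orb G A = s := by
        have := hS hs
        simp only [QL, mem_image] at this
        obtain ⟨A0, hA0, rfl⟩ := this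
        exact orb_eq hA
      have hcA : #A = m := by
        have := hS hs
        simp only [QL, mem_image] at this
        obtain ⟨A0, hA0, rfl⟩ := this
        rw [card_of_mem_orb hA]
        exact (mem_powersetCard_univ).1 hA0
      have hsub : mv γ⁻¹ A ⊆ B := by
        have := mv_subset (γ := γ⁻¹) hAB
        rwa [mv_inv_mv] at this
      have hc' : #(mv γ⁻¹ A) = m := by rw [card_mv]; exact hcA
      have hdiff : #(B \ mv γ⁻¹ A) = 1 := by
        rw [card_sdiff_of_subset hsub]; omega
      obtain ⟨a, ha⟩ := card_eq_one.1 hdiff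
      have haB : a ∈ B \ mv γ⁻¹ A := by rw [ha]; exact mem_singleton_self a
      have hEq : B.erase a = mv γ⁻¹ A := by
        rw [← sdiff_singleton_eq_erase, ← ha, Finset.sdiff_sdiff_eq_self hsub]
      refine ⟨a, (mem_sdiff.1 haB).1, ?_, ?_⟩
      · rw [hEq]; exact hc'
      · rw [hEq, orb_mv (G.inv_mem hγ), hA2]; exact hs
  have hdn : W G (lev n (m + 1)) = W G (dn m Y) +
      Nat.card G * #((QL G (n - m - 1)).filter (fun x => ∃ t ∈ T, QR x t)) := by
    have := W_filter hORB G (n - m - 1) (fun x => ∃ t ∈ T, QR x t)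
    rw [← this]
    have hc := W_compl G ((lev n (n - m - 1)).filter (fun A => ∃ t ∈ T, QR (orb G A) t))
      (lev n (m + 1) \ dn m Y) (fun B => ?_)
    · rw [← hc]
      refine W_split G _ _ _ disjoint_sdiff (fun A => ?_)
      rw [mem_sdiff]
      constructor
      · intro h; by_cases h' : A ∈ dn m Y
        · exact Or.inl h'
        · exact Or.inr ⟨h, h'⟩
      · rintro (h | h)
        · exact (mem_filter.1 h).1
        · exact h.1
    · have hcB : #B ≤ n := by simpa using card_le_univ B
      simp only [dn, mem_sdiff, mem_filter, mem_powersetCard_univ, card_compl, Fintype.card_fin, hY,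
        not_and, not_forall]
      constructor
      · rintro ⟨h1, h2⟩
        obtain ⟨a, ha, h3⟩ := h2 h1
        refine ⟨by omega, ?_⟩
        have hcard : #(B.erase a) = m := by rw [card_erase_of_mem ha]; omega
        have h4 := h3 hcard
        rw [not_not] at h4
        refine ⟨_, h4, Bᶜ, self_mem_orb G _, (B.erase a)ᶜ, self_mem_orb G _, ?_⟩
        exact compl_subset_compl.2 (erase_subset _ _)
      · rintro ⟨h1, t, ht, A, hA, B', hB', hAB⟩
        have hB1 : #B = m + 1 := by omega
        refine ⟨hB1, fun _ => ?_⟩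
        obtain ⟨γ, hγ, rfl⟩ := mem_orb.1 hA
        have hT2 := hT ht
        simp only [QL, mem_image] at hT2
        obtain ⟨A0, hA0, rfl⟩ := hT2
        have hcB' : #B' = n - m := by
          rw [card_of_mem_orb hB']; exact (mem_powersetCard_univ).1 hA0
        have horb : orb G B' = orb G A0 := orb_eq hB'
        have hsub : Bᶜ ⊆ mv γ⁻¹ B' := by
          have := mv_subset (γ := γ⁻¹) hAB
          rwa [mv_inv_mv] at this
        have hsub' : (mv γ⁻¹ B')ᶜ ⊆ B := by
          have := compl_subset_compl.2 hsub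
          rwa [compl_compl] at this
        have hc' : #((mv γ⁻¹ B')ᶜ) = m := by
          rw [card_compl, card_mv, hcB', Fintype.card_fin]; omega
        have hdiff : #(B \ (mv γ⁻¹ B')ᶜ) = 1 := by
          rw [card_sdiff_of_subset hsub']; omega
        obtain ⟨a, ha⟩ := card_eq_one.1 hdiff
        have haB : a ∈ B \ (mv γ⁻¹ B')ᶜ := by rw [ha]; exact mem_singleton_self a
        have hEq : B.erase a = (mv γ⁻¹ B')ᶜ := by
          rw [← sdiff_singleton_eq_erase, ← ha, Finset.sdiff_sdiff_eq_self hsub']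
        refine ⟨a, (mem_sdiff.1 haB).1, ?_⟩
        intro _
        rw [not_not, hEq, compl_compl, orb_mv (G.inv_mem hγ), horb]
        exact ht
  -- conclusion
  have hfin : Nat.card G * (#S + #T + #(QL G (m + 1))) ≤
      Nat.card G * (#((QL G (m + 1)).filter (fun x => ∃ s ∈ S, QR s x)) +
        #((QL G (n - m - 1)).filter (fun x => ∃ t ∈ T, QR x t)) + #(QL G m)) := by
    simp only [Nat.mul_add]
    omega
  have := Nat.le_of_mul_le_mul_left hfin hg
  convert this

end Pool.Agent.Helper71.SR
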